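import Pool.Agent.Helper31.CY.St2

/-!
# Project CY, module Y3: three unit vectors with sum zero
-/

set_option autoImplicit false

namespace Pool.Agent.Helper34.CY

open Pool.Agent.Helper31.CY

/-- the vector `q` is the rotation of `p` by `+120` degrees (`w = √3`) -/
private def Rt (w : ℝ) (p q : ℝ × ℝ) : Prop :=
  q.1 = -p.1 / 2 - w / 2 * p.2 ∧ q.2 = w / 2 * p.1 - p.2 / 2

/-- the conclusion of Y3 with `w` in place of `√3` -/
private def Cc (w : ℝ) (v : Fin 3 → ℝ × ℝ) : Prop :=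
  ∃ i j k : Fin 3, i ≠ j ∧ j ≠ k ∧ i ≠ k ∧ 0 < (v i).2 ∧ (v j).2 < 0 ∧
    (v j).1 / (v j).2 < (v i).1 / (v i).2 ∧
    ((0 < (v k).2 ∧ (v k).1 / (v k).2 < (v i).1 / (v i).2 ∧ 1 / w < (v i).1 / (v i).2) ∨
     ((v k).2 < 0 ∧ (v j).1 / (v j).2 < (v k).1 / (v k).2 ∧
        (v j).1 / (v j).2 < -(1 / w)) ∨
     (v k = (-1, 0) ∧ (v i).1 / (v i).2 = 1 / w ∧
        (v j).1 / (v j).2 = -(1 / w)))

private lemma y3_rot (w x0 y0 x1 y1 : ℝ) (hw : w ^ 2 = 3) (h0 : x0 ^ 2 + y0 ^ 2 = 1)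
    (h1 : x1 ^ 2 + y1 ^ 2 = 1) (h2 : (x0 + x1) ^ 2 + (y0 + y1) ^ 2 = 1) :
    (x1 = -x0 / 2 - w / 2 * y0 ∧ y1 = w / 2 * x0 - y0 / 2) ∨
    (x1 = -x0 / 2 + w / 2 * y0 ∧ y1 = -(w / 2) * x0 - y0 / 2) := by
  have hd : x0 * x1 + y0 * y1 = -1 / 2 := by nlinarith
  have hD : (x0 * y1 - y0 * x1) ^ 2 = 3 / 4 := by
    have e : (x0 * y1 - y0 * x1) ^ 2 = (x0 ^ 2 + y0 ^ 2) * (x1 ^ 2 + y1 ^ 2)
        - (x0 * x1 + y0 * y1) ^ 2 := by ring
    rw [e, h0, h1, hd]; norm_num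
  have hD2 : (x0 * y1 - y0 * x1 - w / 2) * (x0 * y1 - y0 * x1 + w / 2) = 0 := by
    have e : (x0 * y1 - y0 * x1 - w / 2) * (x0 * y1 - y0 * x1 + w / 2)
        = (x0 * y1 - y0 * x1) ^ 2 - w ^ 2 / 4 := by ring
    rw [e, hD, hw]; norm_num
  have e1 : x0 * (x0 * x1 + y0 * y1) - y0 * (x0 * y1 - y0 * x1) = x1 := by
    have e : x0 * (x0 * x1 + y0 * y1) - y0 * (x0 * y1 - y0 * x1) = (x0 ^ 2 + y0 ^ 2) * x1 := by
      ring
    rw [e, h0, one_mul]
  have e2 : y0 * (x0 * x1 + y0 * y1) + x0 * (x0 * y1 - y0 * x1) = y1 := by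
    have e : y0 * (x0 * x1 + y0 * y1) + x0 * (x0 * y1 - y0 * x1) = (x0 ^ 2 + y0 ^ 2) * y1 := by
      ring
    rw [e, h0, one_mul]
  rcases mul_eq_zero.1 hD2 with h | h
  · left
    have hD' : x0 * y1 - y0 * x1 = w / 2 := by linarith
    rw [hd, hD'] at e1 e2
    constructor <;> linarith
  · right
    have hD' : x0 * y1 - y0 * x1 = -(w / 2) := by linarith
    rw [hd, hD'] at e1 e2
    constructor <;> linarith

/-- two positive second coordinates -/
private lemma y3_A {w : ℝ} (hw0 : 0 < w) (v : Fin 3 → ℝ × ℝ)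
    (hu : ∀ i, (v i).1 ^ 2 + (v i).2 ^ 2 = 1) (a b c : Fin 3) (hab : a ≠ b) (hbc : b ≠ c)
    (hac : a ≠ c) (h1 : Rt w (v a) (v b)) (h2 : v a + v b + v c = 0)
    (ha : 0 < (v a).2) (hb : 0 < (v b).2) : Cc w v := by
  have hx : (v a).1 + (v b).1 + (v c).1 = 0 := by
    have := congrArg Prod.fst h2; simpa using this
  have hy : (v a).2 + (v b).2 + (v c).2 = 0 := by
    have := congrArg Prod.snd h2; simpa using this
  have hua := hu a
  obtain ⟨e1, e2⟩ := h1
  have hc1 : (v c).1 = -(v a).1 / 2 + w / 2 * (v a).2 := by linarith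
  have hc2 : (v c).2 = -(w / 2 * (v a).1) - (v a).2 / 2 := by linarith
  have hc : (v c).2 < 0 := by linarith
  refine ⟨a, c, b, hac, hbc.symm, hab, ha, hc, ?_, Or.inl ⟨hb, ?_, ?_⟩⟩
  · have key : (v a).1 / (v a).2 - (v c).1 / (v c).2 = (w / 2) / ((v a).2 * (-(v c).2)) := by
      have hne : (v a).2 ≠ 0 := ha.ne'
      have hne2 : (v c).2 ≠ 0 := hc.ne
      have e : (w / 2) / ((v a).2 * (-(v c).2))
          = ((v a).1 * (v c).2 - (v a).2 * (v c).1) / ((v a).2 * (v c).2) := by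
        rw [hc1]
        have : (v a).1 * (v c).2 - (v a).2 * (-(v a).1 / 2 + w / 2 * (v a).2)
            = -(w / 2) * ((v a).1 ^ 2 + (v a).2 ^ 2) := by
          rw [hc2]; ring
        rw [this, hua, mul_neg, div_neg, mul_one, neg_div]
      rw [e, div_sub_div _ _ hne hne2]
    have hp : 0 < (w / 2) / ((v a).2 * (-(v c).2)) := by
      apply div_pos (by linarith)
      apply mul_pos ha; linarith
    linarith
  · rw [div_lt_div_iff₀ hb ha]
    have : (v a).1 * (v b).2 - (v b).1 * (v a).2 = (w / 2) * ((v a).1 ^ 2 + (v a).2 ^ 2) := by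
      rw [e1, e2]; ring
    rw [hua] at this
    linarith
  · rw [div_lt_div_iff₀ hw0 ha]
    linarith

/-- two negative second coordinates -/
private lemma y3_B {w : ℝ} (hw0 : 0 < w) (v : Fin 3 → ℝ × ℝ)
    (hu : ∀ i, (v i).1 ^ 2 + (v i).2 ^ 2 = 1) (a b c : Fin 3) (hab : a ≠ b) (hbc : b ≠ c)
    (hac : a ≠ c) (h1 : Rt w (v a) (v b)) (h2 : v a + v b + v c = 0)
    (ha : (v a).2 < 0) (hc : (v c).2 < 0) : Cc w v := by
  have hx : (v a).1 + (v b).1 + (v c).1 = 0 := by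
    have := congrArg Prod.fst h2; simpa using this
  have hy : (v a).2 + (v b).2 + (v c).2 = 0 := by
    have := congrArg Prod.snd h2; simpa using this
  have hua := hu a
  obtain ⟨e1, e2⟩ := h1
  have hc1 : (v c).1 = -(v a).1 / 2 + w / 2 * (v a).2 := by linarith
  have hc2 : (v c).2 = -(w / 2 * (v a).1) - (v a).2 / 2 := by linarith
  have hb : 0 < (v b).2 := by linarith
  have hna : 0 < -(v a).2 := by linarith
  have hnc : 0 < -(v c).2 := by linarith
  have ea : (v a).1 / (v a).2 = (-(v a).1) / (-(v a).2) := by rw [neg_div_neg_eq]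
  have ec : (v c).1 / (v c).2 = (-(v c).1) / (-(v c).2) := by rw [neg_div_neg_eq]
  refine ⟨b, a, c, hab.symm, hac, hbc, hb, ha, ?_, Or.inr (Or.inl ⟨hc, ?_, ?_⟩)⟩
  · rw [ea, div_lt_div_iff₀ hna hb]
    have : (v a).1 * (v b).2 - (v b).1 * (v a).2 = (w / 2) * ((v a).1 ^ 2 + (v a).2 ^ 2) := by
      rw [e1, e2]; ring
    rw [hua] at this
    linarith
  · rw [ea, ec, div_lt_div_iff₀ hna hnc]
    have : (v a).1 * (v c).2 - (v c).1 * (v a).2 = -(w / 2) * ((v a).1 ^ 2 + (v a).2 ^ 2) := by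
      rw [hc1, hc2]; ring
    rw [hua] at this
    linarith
  · rw [ea, ← neg_div, div_lt_div_iff₀ hna hw0]
    linarith

/-- a zero second coordinate -/
private lemma y3_C {w : ℝ} (hw0 : 0 < w) (v : Fin 3 → ℝ × ℝ)
    (hu : ∀ i, (v i).1 ^ 2 + (v i).2 ^ 2 = 1) (a b c : Fin 3) (hab : a ≠ b) (hbc : b ≠ c)
    (hac : a ≠ c) (h1 : Rt w (v a) (v b)) (h2 : v a + v b + v c = 0)
    (ha : (v a).2 = 0) (hn : v a ≠ (1, 0)) : Cc w v := by
  have hx : (v a).1 + (v b).1 + (v c).1 = 0 := by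
    have := congrArg Prod.fst h2; simpa using this
  have hy : (v a).2 + (v b).2 + (v c).2 = 0 := by
    have := congrArg Prod.snd h2; simpa using this
  have hua := hu a
  obtain ⟨e1, e2⟩ := h1
  have hm : (v a).1 = -1 := by
    rw [ha] at hua
    have : ((v a).1 - 1) * ((v a).1 + 1) = 0 := by nlinarith
    rcases mul_eq_zero.1 this with h | h
    · exact absurd (Prod.ext (by simpa using (sub_eq_zero.1 h)) (by simpa using ha)) hn
    · linarith
  rw [ha, hm] at e1 e2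
  rw [hm] at hx
  rw [ha] at hy
  have hb1 : (v b).1 = 1 / 2 := by linarith
  have hb2 : (v b).2 = -(w / 2) := by linarith
  have hc1 : (v c).1 = 1 / 2 := by linarith
  have hc2 : (v c).2 = w / 2 := by linarith
  have hwn : w ≠ 0 := hw0.ne'
  have sc : (v c).1 / (v c).2 = 1 / w := by rw [hc1, hc2]; field_simp
  have sb : (v b).1 / (v b).2 = -(1 / w) := by rw [hb1, hb2]; field_simp
  refine ⟨c, b, a, hbc.symm, hab.symm, hac.symm, by rw [hc2]; linarith, by rw [hb2]; linarith, ?_,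
    Or.inr (Or.inr ⟨Prod.ext hm ha, sc, sb⟩)⟩
  rw [sc, sb]
  have : 0 < 1 / w := by positivity
  linarith

private lemma y3_cyc {w : ℝ} (hw0 : 0 < w) (v : Fin 3 → ℝ × ℝ)
    (hu : ∀ i, (v i).1 ^ 2 + (v i).2 ^ 2 = 1) (a b c : Fin 3) (hab : a ≠ b) (hbc : b ≠ c)
    (hac : a ≠ c) (h1 : Rt w (v a) (v b)) (h2 : Rt w (v b) (v c)) (h3 : Rt w (v c) (v a))
    (hs : v a + v b + v c = 0) (hn : ∀ i, v i ≠ (1, 0)) : Cc w v := by
  have hs2 : v b + v c + v a = 0 := by rw [← hs]; abel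
  have hs3 : v c + v a + v b = 0 := by rw [← hs]; abel
  rcases lt_trichotomy (v a).2 0 with ha | ha | ha
  · rcases lt_trichotomy (v b).2 0 with hb | hb | hb
    · exact y3_B hw0 v hu b c a hbc hac.symm hab.symm h2 hs2 hb ha
    · exact y3_C hw0 v hu b c a hbc hac.symm hab.symm h2 hs2 hb (hn b)
    · rcases lt_trichotomy (v c).2 0 with hc | hc | hc
      · exact y3_B hw0 v hu a b c hab hbc hac h1 hs ha hc
      · exact y3_C hw0 v hu c a b hac.symm hab hbc.symm h3 hs3 hc (hn c)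
      · exact y3_A hw0 v hu b c a hbc hac.symm hab.symm h2 hs2 hb hc
  · exact y3_C hw0 v hu a b c hab hbc hac h1 hs ha (hn a)
  · rcases lt_trichotomy (v b).2 0 with hb | hb | hb
    · rcases lt_trichotomy (v c).2 0 with hc | hc | hc
      · exact y3_B hw0 v hu c a b hac.symm hab hbc.symm h3 hs3 hc hb
      · exact y3_C hw0 v hu c a b hac.symm hab hbc.symm h3 hs3 hc (hn c)
      · exact y3_A hw0 v hu c a b hac.symm hab hbc.symm h3 hs3 hc ha
    · exact y3_C hw0 v hu b c a hbc hac.symm hab.symm h2 hs2 hb (hn b)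
    · exact y3_A hw0 v hu a b c hab hbc hac h1 hs ha hb

/-- three numbers with square one do not have sum zero -/
private lemma y3_pm (x0 x1 x2 : ℝ) (h0 : x0 ^ 2 = 1) (h1 : x1 ^ 2 = 1) (h2 : x2 ^ 2 = 1)
    (hs : x0 + x1 + x2 = 0) : False := by
  have e : x2 = -(x0 + x1) := by linarith
  rw [e] at h2
  have h3 : x0 * x1 = -1 / 2 := by nlinarith
  have h4 : (x0 * x1) ^ 2 = 1 := by rw [mul_pow, h0, h1, one_mul]
  rw [h3] at h4
  norm_num at h4

theorem hY3 : StY3 := by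
  intro v hu hs
  have hx : (v 0).1 + (v 1).1 + (v 2).1 = 0 := by
    have := congrArg Prod.fst hs; simpa using this
  have hy : (v 0).2 + (v 1).2 + (v 2).2 = 0 := by
    have := congrArg Prod.snd hs; simpa using this
  have u0 := hu 0
  have u1 := hu 1
  have u2 := hu 2
  refine ⟨?_, ?_, ?_⟩
  · by_contra hcon
    have hle : ∀ i, (v i).2 ≤ 0 := fun i => not_lt.1 (fun h => hcon ⟨i, h⟩)
    have z0 : (v 0).2 = 0 := by linarith [hle 0, hle 1, hle 2]
    have z1 : (v 1).2 = 0 := by linarith [hle 0, hle 1, hle 2]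
    have z2 : (v 2).2 = 0 := by linarith [hle 0, hle 1, hle 2]
    rw [z0] at u0
    rw [z1] at u1
    rw [z2] at u2
    exact y3_pm _ _ _ (by linarith) (by linarith) (by linarith) hx
  · by_contra hcon
    have hle : ∀ i, 0 ≤ (v i).2 := fun i => not_lt.1 (fun h => hcon ⟨i, h⟩)
    have z0 : (v 0).2 = 0 := by linarith [hle 0, hle 1, hle 2]
    have z1 : (v 1).2 = 0 := by linarith [hle 0, hle 1, hle 2]
    have z2 : (v 2).2 = 0 := by linarith [hle 0, hle 1, hle 2]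
    rw [z0] at u0
    rw [z1] at u1
    rw [z2] at u2
    exact y3_pm _ _ _ (by linarith) (by linarith) (by linarith) hx
  · intro hn
    have hw0 : 0 < Real.sqrt 3 := Real.sqrt_pos.2 (by norm_num)
    have hw2 : Real.sqrt 3 ^ 2 = 3 := Real.sq_sqrt (by norm_num)
    have main : Cc (Real.sqrt 3) v := by
      generalize Real.sqrt 3 = w at hw0 hw2
      have hq : ((v 0).1 + (v 1).1) ^ 2 + ((v 0).2 + (v 1).2) ^ 2 = 1 := by
        have ex : (v 0).1 + (v 1).1 = -(v 2).1 := by linarith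
        have ey : (v 0).2 + (v 1).2 = -(v 2).2 := by linarith
        rw [ex, ey, neg_sq, neg_sq]; exact u2
      rcases y3_rot w (v 0).1 (v 0).2 (v 1).1 (v 1).2 hw2 u0 u1 hq with ⟨e1, e2⟩ | ⟨e1, e2⟩
      · have c1 : (v 2).1 = -(v 0).1 / 2 + w / 2 * (v 0).2 := by linarith
        have c2 : (v 2).2 = -(w / 2 * (v 0).1) - (v 0).2 / 2 := by linarith
        refine y3_cyc hw0 v hu 0 1 2 (by decide) (by decide) (by decide) ⟨e1, e2⟩ ⟨?_, ?_⟩ ⟨?_, ?_⟩
          hs hn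
        · rw [c1, e1, e2]; linear_combination ((v 0).1 / 4) * hw2
        · rw [c2, e1, e2]; linear_combination ((v 0).2 / 4) * hw2
        · rw [c1, c2]; linear_combination (-(v 0).1 / 4) * hw2
        · rw [c1, c2]; linear_combination (-(v 0).2 / 4) * hw2
      · have c1 : (v 2).1 = -(v 0).1 / 2 - w / 2 * (v 0).2 := by linarith
        have c2 : (v 2).2 = w / 2 * (v 0).1 - (v 0).2 / 2 := by linarith
        have hs' : v 0 + v 2 + v 1 = 0 := by rw [← hs]; abel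
        refine y3_cyc hw0 v hu 0 2 1 (by decide) (by decide) (by decide) ⟨c1, c2⟩ ⟨?_, ?_⟩ ⟨?_, ?_⟩
          hs' hn
        · rw [e1, c1, c2]; linear_combination ((v 0).1 / 4) * hw2
        · rw [e2, c1, c2]; linear_combination ((v 0).2 / 4) * hw2
        · rw [e1, e2]; linear_combination (-(v 0).1 / 4) * hw2
        · rw [e1, e2]; linear_combination (-(v 0).2 / 4) * hw2
    exact main

end Pool.Agent.Helper34.CY
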